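import Mathlib

namespace Pool.Agent.Results.MP_3eb9f6_co.All

open Finset SimpleGraph

/-- `G` has a neighbor-locating colouring with exactly `k` colour classes. -/
def NL {V : Type} (G : SimpleGraph V) (k : ℕ) : Prop := ∃ c : G.Coloring (Fin k),
  Function.Surjective c ∧ ∀ u v, c u = c v → c '' G.neighborSet u = c '' G.neighborSet v → u = v

theorem result (k Δ : ℕ) (hk : 5 ≤ k) (h3 : 3 ≤ Δ) (hΔ : Δ ≤ k - 2) :
    ∃ (V : Type) (_ : Fintype V) (G : SimpleGraph V) (_ : DecidableRel G.Adj), G.Connected ∧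
      IsLeast {m | NL G m} k ∧ G.maxDegree = Δ ∧
      Fintype.card V = ∑ j ∈ Icc 1 Δ, k * (k - 1).choose j := by
  classical
  let V := {v : Fin k × Finset (Fin k) // v.1 ∈ v.2 ∧ 2 ≤ #v.2 ∧ #v.2 ≤ Δ + 1}
  let F : Fin k → Fin k → Finset (Finset (Fin k)) := fun i j => univ.filter fun S =>
    (3 ≤ #S ∧ #S ≤ Δ + 1 ∧ i ∈ S ∧ j ∈ S) ∧ ∃ m ∈ S, i < m ∧ j < m
  choose p hp hs using fun i j => exists_cycleOn (F i j)
  have p0 : ∀ i j S, S ∉ F i j → p i j S = S := fun i j S h =>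
    Equiv.Perm.notMem_support.1 fun a => h (hs i j a)
  have p1 : ∀ i j S, (3 ≤ #(p i j S) ∧ #(p i j S) ≤ Δ + 1 ∧ i ∈ p i j S ∧ j ∈ p i j S) ↔
      3 ≤ #S ∧ #S ≤ Δ + 1 ∧ i ∈ S ∧ j ∈ S := fun i j S => by
    by_cases h : S ∈ F i j
    · exact iff_of_true (mem_filter.1 ((hp i j).1.mapsTo h)).2.1 (mem_filter.1 h).2.1
    · rw [p0 i j S h]
  obtain ⟨x, x1, x2, x3⟩ : ∃ x : Fin k → Fin k → Fin k, (∀ i j, x i j ≠ i) ∧ (∀ i j, x i j ≠ j) ∧
      ∀ i j, x (x i j) j ≠ i := by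
    let s : Fin k → Fin k := fun i => ⟨if i.val + 1 = k then 0 else i + 1, by split_ifs <;> omega⟩
    refine ⟨fun i j => if s i = j then s (s i) else s i, ?_, ?_, ?_⟩ <;> intro i j <;>
      simp only [s, ne_eq, Fin.ext_iff, apply_ite Fin.val] <;> split_ifs <;> omega
  have c3 : ∀ i j, i ≠ j → #({i, j, x i j} : Finset _) = 3 := fun i j h =>
    card_eq_three.2 ⟨_, _, _, h, (x1 i j).symm, (x2 i j).symm, rfl⟩
  let R : V → V → Prop := fun u v => u.1.1 < v.1.1 ∧ v.1.1 ∈ u.1.2 ∧ 3 ≤ #u.1.2 ∧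
    v.1.2 = p u.1.1 v.1.1 u.1.2 ∨ u.1.1 ≠ v.1.1 ∧ u.1.2 = {u.1.1, v.1.1} ∧
      v.1.2 = {u.1.1, v.1.1, x u.1.1 v.1.1}
  have r1 : ∀ u v, R u v → u.1.1 ≠ v.1.1 ∧ v.1.1 ∈ u.1.2 ∧ u.1.1 ∈ v.1.2 ∧ 3 ≤ #v.1.2 := by
    rintro u v (⟨a, b, c, d⟩ | ⟨a, b, c⟩)
    · have := (p1 _ _ _).2 ⟨c, u.2.2.2, u.2.1, b⟩
      exact ⟨a.ne, b, d ▸ this.2.2.1, d ▸ this.1⟩
    · exact ⟨a, by simp [b], by simp [c], by rw [c, c3 _ _ a]⟩
  let G := fromRel R
  have ad : ∀ u v, G.Adj u v ↔ R u v ∨ R v u := fun u v => ⟨fun h => h.2, fun h =>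
    ⟨fun e => by rw [e, or_self] at h; exact (r1 _ _ h).1 rfl, h⟩⟩
  have a1 : ∀ u v, G.Adj u v → u.1.1 ≠ v.1.1 ∧ v.1.1 ∈ u.1.2 := fun u v h => by
    rcases (ad u v).1 h with h | h
    exacts [⟨(r1 _ _ h).1, (r1 _ _ h).2.1⟩, ⟨(r1 _ _ h).1.symm, (r1 _ _ h).2.2.1⟩]
  have a2 : ∀ (u : V) j, j ∈ u.1.2 → j ≠ u.1.1 → ∃ v, G.Adj u v ∧ v.1.1 = j ∧ 3 ≤ #v.1.2 := by
    intro u j a b
    by_cases c : 3 ≤ #u.1.2
    · rcases b.lt_or_gt with d | d
      · have := (p1 j u.1.1 ((p j u.1.1).symm u.1.2)).1 (by simpa using ⟨c, u.2.2.2, a, u.2.1⟩)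
        exact ⟨⟨(j, _), this.2.2.1, Nat.le_of_succ_le this.1, this.2.1⟩,
          (ad _ _).2 (.inr (.inl ⟨d, this.2.2.2, this.1, by simp⟩)), rfl, this.1⟩
      · have := (p1 u.1.1 j u.1.2).2 ⟨c, u.2.2.2, u.2.1, a⟩
        exact ⟨⟨(j, _), this.2.2.2, Nat.le_of_succ_le this.1, this.2.1⟩,
          (ad _ _).2 (.inl (.inl ⟨d, a, c, rfl⟩)), rfl, this.1⟩
    · have := c3 _ _ b.symm
      exact ⟨⟨(j, {u.1.1, j, x u.1.1 j}), by simp, by dsimp only; omega, by dsimp only; omega⟩, (ad _ _).2 (.inl (.inr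
        ⟨b.symm, (eq_of_subset_of_card_le (by simp [insert_subset_iff, a, u.2.1])
          (by rw [card_pair b.symm]; omega)).symm, rfl⟩)), rfl, this.ge⟩
  have a3 : ∀ u : V, ∃ v, G.Adj u v ∧ 3 ≤ #v.1.2 := fun u => by
    obtain ⟨j, a, b⟩ := exists_mem_ne (s := u.1.2) u.2.2.1 u.1.1
    exact (a2 u j a b).imp fun _ h => ⟨h.1, h.2.2⟩
  have a4 : ∀ u v, G.Adj u v → 3 ≤ #v.1.2 → 3 ≤ #u.1.2 ∧ u.1.1 < v.1.1 ∧ v.1.2 = p u.1.1 v.1.1 u.1.2 ∨
      3 ≤ #u.1.2 ∧ v.1.1 < u.1.1 ∧ u.1.2 = p v.1.1 u.1.1 v.1.2 ∨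
      ¬ 3 ≤ #u.1.2 ∧ v.1.2 = {u.1.1, v.1.1, x u.1.1 v.1.1} := fun u v h a => by
    have t : ∀ (S : Finset (Fin k)) i j, S = {i, j} → ¬ 3 ≤ #S := fun S i j e => by
      have : #({i, j} : Finset _) ≤ 2 := card_le_two
      rw [e]
      omega
    rcases (ad u v).1 h with (h | h) | h | h
    exacts [.inl ⟨h.2.2.1, h.1, h.2.2.2⟩, .inr (.inr ⟨t _ _ _ h.2.1, h.2.2⟩),
      .inr (.inl ⟨(r1 _ _ (.inl h)).2.2.2, h.1, h.2.2.2⟩), absurd a (t _ _ _ h.2.1)]
  have dg : ∀ u, G.degree u ≤ Δ := fun u => by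
    refine (card_le_card_of_injOn (t := if #u.1.2 = 3 then u.1.2 else u.1.2.erase u.1.1)
      (fun w => if 3 ≤ #w.1.2 then w.1.1 else u.1.1) (fun w hw => ?_) fun v hv w hw e => ?_).trans ?_
    · have hw : G.Adj u w := by simpa using hw
      have := a1 u w hw
      have := u.2.1
      rcases (ad u w).1 hw with h | ⟨-, -, h, -⟩ | ⟨a, -, h⟩
      · simp only [if_pos (r1 _ _ h).2.2.2]
        split_ifs <;> simp_all [eq_comm]
      · simp only [if_pos h]
        split_ifs <;> simp_all [eq_comm]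
      · simp only [show #u.1.2 = 3 from h ▸ c3 _ _ a, if_true]
        split_ifs
        exacts [(a1 u w hw).2, u.2.1]
    · have hv : G.Adj u v := by simpa using hv
      have hw : G.Adj u w := by simpa using hw
      have := (a1 u v hv).1
      have := (a1 u w hw).1
      have l : ∀ v, G.Adj u v → ¬ 3 ≤ #v.1.2 → v.1.2 = {v.1.1, u.1.1} ∧
          u.1.2 = {v.1.1, u.1.1, x v.1.1 u.1.1} := fun v h a => by
        rcases (ad u v).1 h with h | h | h
        exacts [absurd (r1 _ _ h).2.2.2 a, absurd h.2.2.1 a, h.2]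
      refine Subtype.ext ?_
      simp only at e
      split_ifs at e with a b b
      · refine Prod.ext e ?_
        have q := a4 u w hw b
        rw [← e] at q
        rcases a4 u v hv a with h | h | h <;> rcases q with g | g | g
        · rw [h.2.2, g.2.2]
        · exact absurd h.2.1 g.2.1.asymm
        · exact absurd h.1 g.1
        · exact absurd h.2.1 g.2.1.asymm
        · exact (p _ _).injective (h.2.2.symm.trans g.2.2)
        · exact absurd h.1 g.1
        · exact absurd g.1 h.1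
        · exact absurd g.1 h.1
        · rw [h.2, g.2]
      · exact absurd e.symm ‹_›
      · exact absurd e ‹_›
      · obtain ⟨c, d⟩ := l v hv a
        obtain ⟨c', d'⟩ := l w hw b
        have : v.1.1 = w.1.1 := by
          have m := d.symm.trans d'
          have m1 : v.1.1 ∈ _ := m ▸ mem_insert_self _ _
          have m2 : w.1.1 ∈ _ := m.symm ▸ mem_insert_self _ _
          have := x3 v.1.1 u.1.1
          grind
        exact Prod.ext this (by rw [c, c', this])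
    · have := u.2
      split_ifs
      · omega
      · rw [card_erase_of_mem this.1]
        omega
  let t : Fin k := ⟨k - 1, by omega⟩
  let o : Fin k := ⟨0, by omega⟩
  let e : Fin k := ⟨1, by omega⟩
  have ne : o ≠ e ∧ o < t ∧ e < t := by simp only [o, e, t, ne_eq, Fin.ext_iff, Fin.lt_def]; omega
  have c0 : #({o, e, t} : Finset _) = 3 := card_eq_three.2 ⟨_, _, _, ne.1, ne.2.1.ne, ne.2.2.ne, rfl⟩
  let b : V := ⟨(t, {o, e, t}), by simp, by dsimp only; omega, by dsimp only; omega⟩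
  let Z : Finset (Fin k) → Prop := fun S => ∀ v : V, v.1.2 = S → G.Reachable b v
  have z1 : ∀ u : V, 3 ≤ #u.1.2 → G.Reachable b u → Z u.1.2 := fun u h r v hv => by
    let m : V := ⟨(u.1.2.max' ⟨_, u.2.1⟩, u.1.2), max'_mem _ ⟨_, u.2.1⟩, u.2.2⟩
    have : ∀ w : V, w.1.2 = u.1.2 → G.Reachable w m := fun w hw => by
      rcases (le_max' u.1.2 w.1.1 (hw ▸ w.2.1)).eq_or_lt with q | q
      · rw [show w = m from Subtype.ext (Prod.ext q hw)]
      · refine ((ad _ _).2 (.inl (.inl ⟨q, hw ▸ m.2.1, hw ▸ h, ?_⟩))).reachable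
        rw [hw, p0]
        intro g
        obtain ⟨-, -, y, g, -, q⟩ := mem_filter.1 g
        exact q.not_ge (le_max' _ _ g)
    exact (r.trans (this u rfl)).trans (this v hv).symm
  have Fs : ∀ i j, F i j = F j i := fun i j => by
    ext S
    simp only [F, mem_filter, and_comm (a := i ∈ S), and_comm (a := i < _)]
  have z2 : ∀ i j, i < j → ∀ S ∈ F i j, Z S → ∀ T ∈ F i j, Z T := fun i j h S a z T c => by
    obtain ⟨n, -, rfl⟩ := (hp i j).exists_pow_eq a c
    clear c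
    suffices (p i j ^ n) S ∈ F i j ∧ Z ((p i j ^ n) S) from this.2
    induction n with
    | zero => exact ⟨a, z⟩
    | succ n ih =>
      rw [pow_succ', Equiv.Perm.mul_apply]
      have q := (hp i j).1.mapsTo ih.1
      have u := (mem_filter.1 ih.1).2.1
      have v := (mem_filter.1 q).2.1
      exact ⟨q, z1 ⟨(j, _), v.2.2.2, Nat.le_of_succ_le v.1, v.2.1⟩ v.1 ((ih.2
        ⟨(i, _), u.2.2.1, Nat.le_of_succ_le u.1, u.2.1⟩ rfl).trans ((ad _ _).2 (.inl (.inl ⟨h, u.2.2.2, u.1, rfl⟩))).reachable)⟩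
  have z3 : ∀ i j, i ≠ j → ∀ S ∈ F i j, Z S → ∀ T ∈ F i j, Z T := fun i j h => by
    rcases h.lt_or_gt with h | h
    exacts [z2 i j h, Fs i j ▸ z2 j i h]
  have z4 : ∀ i j y, i ≠ j → i ≠ y → i < t → j < t → y < t → (∀ S ∈ F i j, Z S) →
      ∀ S ∈ F i y, Z S := fun i j y a c d f g h => by
    have q : 3 ≤ #({i, j, y, t} : Finset _) ∧ #({i, j, y, t} : Finset _) ≤ Δ + 1 :=
      ⟨(card_eq_three.2 ⟨i, j, t, a, d.ne, f.ne, rfl⟩).ge.trans (card_le_card (by
        simp [insert_subset_iff])), card_le_four.trans (by omega)⟩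
    exact z3 i y c {i, j, y, t} (mem_filter.2 ⟨mem_univ _, by simp [q], t, by simp, d, g⟩)
      (h _ (mem_filter.2 ⟨mem_univ _, by simp [q], t, by simp, d, f⟩))
  have z5 : ∀ y, o ≠ y → y < t → ∀ S ∈ F o y, Z S := fun y a c => z4 o e y ne.1 a ne.2.1 ne.2.2 c
    (z3 o e ne.1 {o, e, t} (by simp [F, c0, ne]; omega) (z1 b c0.ge (.refl _)))
  have z6 : ∀ u : V, 3 ≤ #u.1.2 → G.Reachable b u := fun u h => by
    have m := max'_mem u.1.2 ⟨_, u.2.1⟩
    obtain ⟨i, hi, j, hj, ij⟩ := one_lt_card.1 (show 1 < #(u.1.2.erase _) by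
      rw [card_erase_of_mem m]; omega)
    have l : ∀ i ∈ u.1.2.erase (u.1.2.max' ⟨_, u.2.1⟩), i < u.1.2.max' ⟨_, u.2.1⟩ ∧ i < t :=
      fun i a => by
        have := (le_max' _ _ (mem_of_mem_erase a)).lt_of_ne (ne_of_mem_erase a)
        exact ⟨this, this.trans_le (Fin.le_def.2 (Nat.le_sub_one_of_lt (Fin.is_lt _)))⟩
    have f : u.1.2 ∈ F i j := mem_filter.2 ⟨mem_univ _, ⟨h, u.2.2.2, mem_of_mem_erase hi,
      mem_of_mem_erase hj⟩, _, m, (l i hi).1, (l j hj).1⟩
    by_cases c : o = i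
    · exact z5 j (c ▸ ij) (l j hj).2 _ (c ▸ f) u rfl
    · exact z4 i o j (Ne.symm c) ij (l i hi).2 ne.2.1 (l j hj).2 (Fs o i ▸ z5 i c (l i hi).2) _ f u rfl
  have im : ∀ u : V, (fun v : V => v.1.1) '' G.neighborSet u = u.1.2.erase u.1.1 := fun u => by
    ext j
    simp only [Set.mem_image, mem_neighborSet, mem_coe, mem_erase]
    exact ⟨fun ⟨v, a, c⟩ => c ▸ ⟨(a1 u v a).1.symm, (a1 u v a).2⟩,
      fun h => (a2 u j h.2 h.1).imp fun _ g => ⟨g.1, g.2.1⟩⟩
  refine ⟨V, inferInstance, G, inferInstance, (connected_iff_exists_forall_reachable _).2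
    ⟨b, fun u => ?_⟩, ⟨⟨Coloring.mk (fun v => v.1.1) (fun h => (a1 _ _ h).1), fun i => ?_,
      fun u v a c => ?_⟩, fun m ⟨c, _, h⟩ => not_lt.1 fun hm => ?_⟩,
      le_antisymm (maxDegree_le_of_forall_degree_le _ _ fun v =>
        (congrArg card (by ext; simp)).trans_le (dg v)) ?_, ?_⟩
  · obtain ⟨v, a, c⟩ := a3 u
    exact (z6 v c).trans a.reachable.symm
  · have := card_pair (x1 i i).symm
    exact ⟨⟨(i, {i, x i i}), by simp, by dsimp only; omega, by dsimp only; omega⟩, rfl⟩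
  · have a : u.1.1 = v.1.1 := a
    have c : u.1.2.erase u.1.1 = v.1.2.erase v.1.1 := coe_inj.1 ((im u).symm.trans (c.trans (im v)))
    exact Subtype.ext (Prod.ext a (by rw [← insert_erase u.2.1, c, a, insert_erase v.2.1]))
  · let d : V → Fin k := fun v => (c v).castLE hm.le
    have n : ∀ v, d v ∉ (G.neighborFinset v).image d := fun v a => by
      obtain ⟨w, a, g⟩ := mem_image.1 a
      exact c.valid (by simpa using a) (Fin.castLE_injective _ g).symm
    let Φ : V → V := fun v => ⟨(d v, insert (d v) ((G.neighborFinset v).image d)), by simp, by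
      obtain ⟨w, a, -⟩ := a3 v
      rw [card_insert_of_notMem (n v)]
      exact Nat.succ_le_succ (card_pos.2 ⟨d w, mem_image_of_mem _ (by simpa)⟩), by
      rw [card_insert_of_notMem (n v)]
      exact Nat.succ_le_succ (card_image_le.trans (dg v))⟩
    obtain ⟨v, a⟩ := Finite.surjective_of_injective (f := Φ) (fun u v a => by
      have g : insert (d u) _ = insert (d v) _ := congrArg (·.1.2) a
      have a : d u = d v := congrArg (·.1.1) a
      refine h u v (Fin.castLE_injective _ a) ((Fin.castLE_injective hm.le).image_injective ?_)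
      have : (G.neighborFinset u).image d = (G.neighborFinset v).image d := by
        rw [← erase_insert (n u), g, a, erase_insert (n v)]
      simpa [Set.image_image] using congrArg (fun s : Finset _ => (s : Set (Fin k))) this) b
    have := congrArg (fun v : V => v.1.1.val) a
    have := (c v).2
    simp only [Φ, d, b, t, Fin.val_castLE] at *
    omega
  · obtain ⟨S, -, a⟩ := exists_subset_card_eq (s := (univ : Finset (Fin k))) (n := Δ + 1)
      (by simp; omega)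
    obtain ⟨i, c⟩ := card_pos.1 (show 0 < #S by omega)
    let u : V := ⟨(i, S), c, by dsimp only; omega, a.le⟩
    refine le_trans ?_ (G.degree_le_maxDegree u)
    have := card_le_card_of_surjOn (s := G.neighborFinset u) (t := S.erase i) (fun v => v.1.1)
      (by rw [coe_neighborFinset]; exact (im u).ge)
    rw [card_erase_of_mem c, a] at this
    exact this.trans_eq (congrArg card (by ext; simp))
  · rw [Fintype.card_subtype, card_eq_sum_card_fiberwise (f := fun v => #v.2 - 1) (t := Icc 1 Δ)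
      fun v a => by simp at a ⊢; omega]
    refine sum_congr rfl fun j hj => ?_
    rw [card_eq_sum_card_fiberwise (f := Prod.fst) (t := univ) fun _ _ => by simp,
      sum_congr rfl (g := fun _ => (k - 1).choose j) fun i _ => ?_]
    · simp
    have := card_filter_powersetCard_subset {i} univ (j + 1) (by simp) (by simp)
    simp only [card_univ, Fintype.card_fin, card_singleton, Nat.add_sub_cancel] at this
    rw [← this]
    refine card_bij (fun v _ => v.2) (fun v a => ?_) (fun u a v c h => ?_) fun S a => ⟨(i, S), ?_, rfl⟩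
    all_goals simp at *
    all_goals grind

end Pool.Agent.Results.MP_3eb9f6_co.All
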